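import Pool.Agent.Y159.PepsScale

/-!
PEPS approximation of gapped ground states on the torus: the scale `exp (C (log L)^k)` of the bond
dimension is the same in all the equivalent forms, and the bond dimension is polynomial in the
partition function.
-/

set_option autoImplicit false

open scoped BigOperators Matrix
open Finset Pool.Agent.TH235.PP Pool.Agent.Results.MP_953b23_mp.OverlapBoosting
  Pool.Agent.Results.MP_953b23_mp.ThermalCriterion

namespace Pool.Agent.Results.MP_953b23_mp.PreservedScale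

/-- (A) The bond dimension is polynomial in `e^β`, `L`, `1 / ε` and the partition function at any
inverse temperature `β`. (B) For every `k ≥ 1` the equivalent forms of the conclusion of the open
problem with bond dimension `exp (O((log L)^k))`, with the same `k` in all of them. (C) A partition
function, or a number of states, of quasi-polynomial size with the exponent `k` suffices. -/
theorem result :
    (∀ (d R : ℕ) (h : BoxOp d (R + 1)), h.IsHermitian → ∀ Δ : ℝ, 0 < Δ →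
      ∃ C : ℝ, 0 < C ∧ ∀ (L : ℕ) [NeZero L], 2 ≤ L → R + 1 ≤ L →
        ∀ Ψ : (Site L → Fin d) → ℂ, normSq Ψ = 1 → IsGappedGround (ham h L) Δ Ψ →
        ∀ (hH : (ham h L).IsHermitian) (β ε : ℝ), 0 ≤ β → 0 < ε → ε ≤ 1 →
        ∃ (D : ℕ) (ψ : (Site L → Fin d) → ℂ),
          (D : ℝ) ≤ (Real.exp β * L * partition hH (energy (ham h L) Ψ) β / ε) ^ C ∧
            IsPEPS D ψ ∧ Real.sqrt (normSq (ψ - Ψ)) ≤ ε) ∧
    (∀ (d R : ℕ) (h : BoxOp d R) (Δ : ℝ) (Ψ : ∀ L : ℕ, (Site L → Fin d) → ℂ),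
      GappedFamily h Δ Ψ → ∀ k : ℕ, 1 ≤ k →
      List.TFAE [
        ∀ c : ℝ, 0 < c → ∃ C : ℝ, Approx Ψ k C fun L => (L : ℝ) ^ (-c),
        ∃ c : ℝ, 0 < c ∧ ∃ C : ℝ, Approx Ψ k C fun L => (L : ℝ) ^ (-c),
        ∀ a : ℝ, 0 < a → ∃ C : ℝ, Approx Ψ k C fun L => Real.exp (-(a * Real.log L ^ k)),
        ∃ C : ℝ, PureOverlap Ψ k C,
        ∃ C : ℝ, MixedOverlap Ψ k C,
        ∃ C : ℝ, LowEnergy h Δ Ψ k C,
        ∃ (R' : ℕ) (h' : BoxOp d R') (Δ' : ℝ) (Ψ' : ∀ L : ℕ, (Site L → Fin d) → ℂ),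
          GappedFamily h' Δ' Ψ' ∧
          (∀ c : ℝ, 0 < c → ∃ C : ℝ, Approx Ψ' k C fun L => (L : ℝ) ^ (-c)) ∧
          ∃ (C : ℝ) (L₀ : ℕ), ∀ (L : ℕ) [NeZero L], L₀ ≤ L →
            Real.exp (-(C * Real.log L ^ k)) ≤ ‖ip (Ψ L) (Ψ' L)‖]) ∧
    (∀ (d R : ℕ) (h : BoxOp d R) (Δ : ℝ) (Ψ : ∀ L : ℕ, (Site L → Fin d) → ℂ),
      GappedFamily h Δ Ψ → ∀ k : ℕ, 1 ≤ k → ∀ C : ℝ, SmallPartition h Ψ k C ∨ FewStates h Ψ k C →
        ∀ c : ℝ, 0 < c → ∃ C' : ℝ, Approx Ψ k C' fun L => (L : ℝ) ^ (-c)) := by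
  refine ⟨Pool.Agent.Y159.PepsScale.boundZ, ?_, ?_⟩
  · intro d R h Δ Ψ hF k hk
    exact Pool.Agent.Y159.PepsScale.equivK hF k hk
  · intro d R h Δ Ψ hF k hk C hS
    rcases hS with hS | hS
    · exact Pool.Agent.Y159.PepsScale.thermK hF k hk hS
    · obtain ⟨C', hC'⟩ := few_to_small hF hS
      exact Pool.Agent.Y159.PepsScale.thermK hF k hk hC'

end Pool.Agent.Results.MP_953b23_mp.PreservedScale
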